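import Pool.Agent.H677_SC.Basic

set_option autoImplicit false

open Finset

namespace Pool.Agent.Results.MP_f8e877_nt.PartCFailsAtEleven

/-- The generalized central trinomial coefficient `T_n(b, c)`, by its explicit formula. -/
def T (n : ℕ) (b c : ℤ) : ℤ :=
  ∑ j ∈ range (n / 2 + 1), (n.choose (2 * j) : ℤ) * ((2 * j).choose j : ℤ) * b ^ (n - 2 * j) * c ^ j

/-- `A_k = binom(2k, k) binom(3k, k)`. -/
def A (k : ℕ) : ℚ := ((2 * k).choose k : ℚ) * ((3 * k).choose k : ℚ)

/-- `B_k = binom(2k, k)²`. -/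
def B (k : ℕ) : ℚ := ((2 * k).choose k : ℚ) ^ 2

/-- `u_k = T_k(18, 1) / 512 ^ k`. -/
def u (k : ℕ) : ℚ := (T k 18 1 : ℚ) / 512 ^ k

/-- `v_k = T_{3k}(6, 1) / (-512) ^ k`. -/
def v (k : ℕ) : ℚ := (T (3 * k) 6 1 : ℚ) / (-512) ^ k

/-- `S = ∑_{k < p} A_k u_k`. -/
def S (p : ℕ) : ℚ := ∑ k ∈ range p, A k * u k

/-- `S' = ∑_{k < p} A_k v_k`. -/
def S' (p : ℕ) : ℚ := ∑ k ∈ range p, A k * v k

/-- `x ≡ y` modulo `p ^ 2` in the rationals with denominator prime to `p`: the difference is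
`p ^ 2` times a rational number whose denominator is not divisible by `p`. -/
def Congr (p : ℕ) (x y : ℚ) : Prop := ∃ r : ℚ, ¬ p ∣ r.den ∧ x - y = (p : ℚ) ^ 2 * r

/-- The statements (a), (b), (c) of Q1 for the prime `p`. -/
def Assertion (p : ℕ) : Prop :=
  (Congr p (S p) ((jacobiSym 10 p : ℚ) * S' p) ∧
    (jacobiSym p 5 = 1 → jacobiSym p 7 = 1 → ∀ x y : ℤ, 4 * (p : ℤ) = x ^ 2 + 35 * y ^ 2 →
      Congr p (S p) ((x : ℚ) ^ 2 - 2 * p)) ∧
    (jacobiSym p 5 = -1 → jacobiSym p 7 = -1 → ∀ x y : ℤ, 4 * (p : ℤ) = 5 * x ^ 2 + 7 * y ^ 2 →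
      Congr p (S p) (2 * p - 5 * (x : ℚ) ^ 2)) ∧
    (jacobiSym p 35 = -1 → Congr p (S p) 0)) ∧
  Congr p (∑ k ∈ range p, (35 * (k : ℚ) + 9) * A k * u k)
    (9 / 2 * p * (7 - 5 * (jacobiSym p 5 : ℚ))) ∧
  Congr p (∑ k ∈ range p, (35 * (k : ℚ) + 9) * B k * v k)
    (9 / 32 * p * (jacobiSym 2 p : ℚ) * (25 + 7 * (jacobiSym p 7 : ℚ)))

/-- Q1 as posed, with the factor `B_k = binom(2k, k)²` in (c), is false: (c) fails for
`p = 11`. -/
theorem result : ¬ ∀ p : ℕ, p.Prime → 7 < p → Assertion p := by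
  intro h
  obtain ⟨r, hr, he⟩ := (h 11 (by norm_num) (by norm_num)).2.2
  have h2 : jacobiSym 2 11 = -1 := by norm_num
  have h7 : jacobiSym ((11 : ℕ) : ℤ) 7 = 1 := by norm_num
  rw [h2, h7] at he
  have t0 : T 0 6 1 = 1 := by decide +kernel
  have t3 : T 3 6 1 = 252 := by decide +kernel
  have t6 : T 6 6 1 = 88796 := by decide +kernel
  have t9 : T 9 6 1 = 36478404 := by decide +kernel
  have t12 : T 12 6 1 = 16054486044 := by decide +kernel
  have t15 : T 15 6 1 = 7325088811632 := by decide +kernel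
  have t18 : T 18 6 1 = 3416328042565124 := by decide +kernel
  have t21 : T 21 6 1 = 1617124976299315224 := by decide +kernel
  have t24 : T 24 6 1 = 773718627485436396316 := by decide +kernel
  have t27 : T 27 6 1 = 373208862702183074593488 := by decide +kernel
  have t30 : T 30 6 1 = 181171961595040011125938416 := by decide +kernel
  have c1 : Nat.choose 2 1 = 2 := by decide +kernel
  have c2 : Nat.choose 4 2 = 6 := by decide +kernel
  have c3 : Nat.choose 6 3 = 20 := by decide +kernel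
  have c4 : Nat.choose 8 4 = 70 := by decide +kernel
  have c5 : Nat.choose 10 5 = 252 := by decide +kernel
  have c6 : Nat.choose 12 6 = 924 := by decide +kernel
  have c7 : Nat.choose 14 7 = 3432 := by decide +kernel
  have c8 : Nat.choose 16 8 = 12870 := by decide +kernel
  have c9 : Nat.choose 18 9 = 48620 := by decide +kernel
  have c10 : Nat.choose 20 10 = 184756 := by decide +kernel
  have key := Pool.Agent.H677_SC.dvd_of_den (p := 11) (m := 2) (by norm_num) hr
    (d := 512 ^ 10) (N := 2082900544612178988146055599953620316416) (by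
      rw [← he]
      norm_num [B, v, Finset.sum_range_succ, t0, t3, t6, t9, t12, t15, t18, t21, t24, t27, t30, c1, c2, c3, c4, c5, c6, c7, c8, c9, c10])
  revert key
  norm_num

end Pool.Agent.Results.MP_f8e877_nt.PartCFailsAtEleven
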